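import Pool.Agent.H69.LQ.Lib

/-!
# Board lqm_modules, row LB: lower bound for the first zero
-/

set_option autoImplicit false

open MeasureTheory Metric Set
open scoped ENNReal
open Pool.Agent.H85.LK (E adm lam Ann)
open Pool.Agent.H69.LQ

namespace Pool.Agent.H86.LQ

open Filter Topology

/-- the terms of the series -/
noncomputable def tt (m z : ℝ) (k : ℕ) : ℝ :=
  z ^ k / (k.factorial * ∏ i ∈ Finset.range k, (m + i))

theorem tt_nonneg {m z : ℝ} (hm : 0 ≤ m) (hz : 0 ≤ z) (k : ℕ) : 0 ≤ tt m z k := by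
  unfold tt
  have h : 0 ≤ ∏ i ∈ Finset.range k, (m + i) := Finset.prod_nonneg fun i _ => by positivity
  positivity

theorem prod_ge_one {m : ℝ} (hm : 1 ≤ m) (k : ℕ) : 1 ≤ ∏ i ∈ Finset.range k, (m + i) := by
  induction k with
  | zero => rw [Finset.prod_range_zero]
  | succ k ih =>
      rw [Finset.prod_range_succ]
      have h : (1 : ℝ) ≤ m + k := by
        have : (0 : ℝ) ≤ k := Nat.cast_nonneg k
        linarith
      nlinarith

theorem tt_succ {m z : ℝ} (hm : 0 < m) (k : ℕ) :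
    tt m z (k + 1) = tt m z k * (z / ((k + 1) * (m + k))) := by
  unfold tt
  rw [Finset.prod_range_succ, Nat.factorial_succ, pow_succ]
  have h1 : (∏ i ∈ Finset.range k, (m + (i : ℝ))) ≠ 0 :=
    Finset.prod_ne_zero_iff.2 fun i _ => by positivity
  have h2 : m + (k : ℝ) ≠ 0 := by positivity
  have h3 : ((k.factorial : ℕ) : ℝ) ≠ 0 := by positivity
  push_cast
  field_simp

theorem J_term (m z : ℝ) (k : ℕ) :
    (-z) ^ k / (k.factorial * ∏ i ∈ Finset.range k, (m + i)) = (-1) ^ k * tt m z k := by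
  unfold tt
  rw [neg_pow, mul_div_assoc]

theorem J_summable {m z : ℝ} (hm : 1 ≤ m) (hz : 0 ≤ z) :
    Summable fun k : ℕ => (-1) ^ k * tt m z k := by
  refine Summable.of_norm_bounded (g := fun k : ℕ => z ^ k / k.factorial)
    (Real.summable_pow_div_factorial z) fun k => ?_
  rw [norm_mul, norm_pow, norm_neg, norm_one, one_pow, one_mul, Real.norm_eq_abs,
    abs_of_nonneg (tt_nonneg (by linarith) hz k)]
  unfold tt
  have h := prod_ge_one hm k
  refine div_le_div_of_nonneg_left (by positivity) (by positivity) ?_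
  have h1 : (0 : ℝ) < k.factorial := by positivity
  nlinarith

theorem J_lower {m z : ℝ} (hm : 2 ≤ m) (hz : 0 ≤ z) (hz1 : z ≤ 2 * (m + 1)) :
    1 - tt m z 1 + tt m z 2 - tt m z 3 ≤ J m z := by
  have hs := J_summable (m := m) (z := z) (by linarith) hz
  have h1 : Tendsto (fun n => ∑ k ∈ Finset.range n, (-1) ^ k * tt m z k) atTop (𝓝 (J m z)) := by
    have h2 := hs.hasSum.tendsto_sum_nat
    have h3 : ∑' k : ℕ, (-1) ^ k * tt m z k = J m z := by
      unfold J
      exact tsum_congr fun k => (J_term m z k).symm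
    rwa [h3] at h2
  have h4 : Tendsto (fun n => ∑ k ∈ Finset.range n, (-1) ^ k * tt m z (k + 1)) atTop
      (𝓝 (1 - J m z)) := by
    have h5 : ∀ n, ∑ k ∈ Finset.range n, (-1) ^ k * tt m z (k + 1) =
        1 - ∑ k ∈ Finset.range (n + 1), (-1) ^ k * tt m z k := by
      intro n
      rw [Finset.sum_range_succ']
      have h6 : tt m z 0 = 1 := by
        unfold tt
        simp
      have h7 : ∑ k ∈ Finset.range n, (-1 : ℝ) ^ (k + 1) * tt m z (k + 1) =
          -∑ k ∈ Finset.range n, (-1 : ℝ) ^ k * tt m z (k + 1) := by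
        rw [← Finset.sum_neg_distrib]
        refine Finset.sum_congr rfl fun k _ => ?_
        rw [pow_succ]
        ring
      rw [h7, h6]
      ring
    rw [funext h5]
    exact (((tendsto_add_atTop_iff_nat 1).2 h1).const_sub 1)
  have hanti : Antitone fun k => tt m z (k + 1) := by
    refine antitone_nat_of_succ_le fun k => ?_
    rw [tt_succ (by linarith) (k + 1)]
    refine mul_le_of_le_one_right (tt_nonneg (by linarith) hz _) ?_
    have hk : (0 : ℝ) ≤ k := Nat.cast_nonneg k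
    rw [div_le_one (by push_cast; positivity)]
    push_cast
    nlinarith
  have h8 := hanti.tendsto_le_alternating_series h4 1
  rw [show 2 * 1 + 1 = 3 by norm_num, Finset.sum_range_succ, Finset.sum_range_succ,
    Finset.sum_range_succ, Finset.sum_range_zero] at h8
  norm_num at h8
  linarith

theorem poly_pos {m s : ℝ} (hm : 2 ≤ m) (hs1 : s ≤ (4 * m + 1) / (4 * m - 2)) :
    0 < 1 - s + s ^ 2 * (m / (2 * (m + 1))) - s ^ 3 * (m ^ 2 / (6 * (m + 1) * (m + 2))) := by
  have h1 : (0 : ℝ) < m + 1 := by linarith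
  have h2 : (0 : ℝ) < m + 2 := by linarith
  have h3 : (0 : ℝ) < 4 * m - 2 := by linarith
  obtain ⟨A, hA⟩ : ∃ A, A = m / (m + 1) := ⟨_, rfl⟩
  obtain ⟨B, hB⟩ : ∃ B, B = m / (m + 2) := ⟨_, rfl⟩
  obtain ⟨s0, hs0⟩ : ∃ s0, s0 = (4 * m + 1) / (4 * m - 2) := ⟨_, rfl⟩
  rw [← hs0] at hs1
  have e1 : m / (2 * (m + 1)) = A / 2 := by rw [hA]; field_simp
  have e2 : m ^ 2 / (6 * (m + 1) * (m + 2)) = A * B / 6 := by rw [hA, hB]; field_simp
  rw [e1, e2]
  have hA0 : 0 < A := by rw [hA]; positivity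
  have hB0 : 0 < B := by rw [hB]; positivity
  have hAB : A < 2 * B := by
    rw [hA, hB, div_lt_iff₀ h1]
    have : 2 * (m / (m + 2)) * (m + 1) = m * (2 * (m + 1) / (m + 2)) := by field_simp
    rw [this]
    have h4 : 1 < 2 * (m + 1) / (m + 2) := by
      rw [lt_div_iff₀ h2]
      linarith
    nlinarith
  have hP0 : 0 < 1 - s0 + s0 ^ 2 * (A / 2) - s0 ^ 3 * (A * B / 6) := by
    obtain ⟨x, hx⟩ : ∃ x, x = m - 2 := ⟨_, rfl⟩
    have hx0 : 0 ≤ x := by linarith
    have hmx : m = x + 2 := by linarith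
    have e3 : 1 - s0 + s0 ^ 2 * (A / 2) - s0 ^ 3 * (A * B / 6) =
        (6 * (m + 1) * (m + 2) * (4 * m - 2) ^ 3 - 6 * (m + 1) * (m + 2) * (4 * m + 1) *
          (4 * m - 2) ^ 2 + 3 * m * (m + 2) * (4 * m + 1) ^ 2 * (4 * m - 2) -
          m ^ 2 * (4 * m + 1) ^ 3) / (6 * (m + 1) * (m + 2) * (4 * m - 2) ^ 3) := by
      rw [hs0, hA, hB]
      have h3' : (4 * m - 2) ≠ 0 := h3.ne'
      field_simp
      ring
    rw [e3]
    refine div_pos ?_ (by positivity)
    rw [hmx]
    ring_nf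
    positivity
  have hdec : 0 ≤ (1 - s + s ^ 2 * (A / 2) - s ^ 3 * (A * B / 6)) -
      (1 - s0 + s0 ^ 2 * (A / 2) - s0 ^ 3 * (A * B / 6)) := by
    have e4 : (1 - s + s ^ 2 * (A / 2) - s ^ 3 * (A * B / 6)) -
        (1 - s0 + s0 ^ 2 * (A / 2) - s0 ^ 3 * (A * B / 6)) =
        (s0 - s) * (1 - A * (s + s0) / 2 + A * B * (s ^ 2 + s * s0 + s0 ^ 2) / 6) := by ring
    rw [e4]
    refine mul_nonneg (by linarith) ?_
    have h5 : 3 / 4 * (s + s0) ^ 2 ≤ s ^ 2 + s * s0 + s0 ^ 2 := by nlinarith [sq_nonneg (s - s0)]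
    have h6 : A * B / 6 * (3 / 4 * (s + s0) ^ 2) ≤ A * B / 6 * (s ^ 2 + s * s0 + s0 ^ 2) :=
      mul_le_mul_of_nonneg_left h5 (by positivity)
    have h7 : A * A / 16 * (s + s0) ^ 2 ≤ A * B / 8 * (s + s0) ^ 2 := by
      refine mul_le_mul_of_nonneg_right ?_ (sq_nonneg _)
      nlinarith
    nlinarith [sq_nonneg (1 - A * (s + s0) / 4)]
  linarith

theorem pf_LB (hJS : T_JS) : T_LB := by
  intro N L hN hF
  have _ := hJS
  obtain ⟨m, hm⟩ : ∃ m : ℝ, m = (N : ℝ) / 2 + 1 := ⟨_, rfl⟩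
  have hN' : (2 : ℝ) ≤ N := by exact_mod_cast hN
  have hm2 : 2 ≤ m := by linarith
  have hzero := hF.zero
  rw [← hm] at hzero
  have hLpos := hF.pos
  have h3 : (0 : ℝ) < 4 * m - 2 := by linarith
  have key : m * ((4 * m + 1) / (4 * m - 2)) < L / 4 := by
    by_contra hcon
    push Not at hcon
    have hz0 : 0 ≤ L / 4 := by linarith
    have hs0 : (4 * m + 1) / (4 * m - 2) ≤ 3 / 2 := by
      rw [div_le_iff₀ h3]
      linarith
    have hz1 : L / 4 ≤ 2 * (m + 1) := by
      have : m * ((4 * m + 1) / (4 * m - 2)) ≤ m * (3 / 2) :=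
        mul_le_mul_of_nonneg_left hs0 (by linarith)
      linarith
    have h4 := J_lower hm2 hz0 hz1
    have hs1 : L / 4 / m ≤ (4 * m + 1) / (4 * m - 2) := by
      rw [div_le_iff₀ (by linarith)]
      linarith
    have h5 := poly_pos hm2 hs1
    have e1 : tt m (L / 4) 1 = L / 4 / m := by
      unfold tt
      simp
    have e2 : tt m (L / 4) 2 = (L / 4 / m) ^ 2 * (m / (2 * (m + 1))) := by
      unfold tt
      simp [Finset.prod_range_succ, Nat.factorial]
      field_simp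
    have e3 : tt m (L / 4) 3 = (L / 4 / m) ^ 3 * (m ^ 2 / (6 * (m + 1) * (m + 2))) := by
      unfold tt
      simp [Finset.prod_range_succ, Nat.factorial]
      field_simp
    rw [e1, e2, e3] at h4
    linarith
  have h6 : (N : ℝ) = 2 * m - 2 := by linarith
  rw [h6]
  have h7 : m * (4 * m + 1) / (4 * m - 2) < L / 4 := by rwa [mul_div_assoc]
  rw [div_lt_iff₀ h3] at h7
  have h8 : (0 : ℝ) < 2 * m - 2 + 2 := by linarith
  have h9 : (2 * m - 2 + 1) * (L / (2 * m - 2 + 2) - 2) =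
      ((2 * m - 1) * (L - 4 * m)) / (2 * m) := by
    have : (2 * m - 2 + 2) = 2 * m := by ring
    rw [this]
    field_simp
    ring
  rw [h9, lt_div_iff₀ (by linarith)]
  nlinarith

end Pool.Agent.H86.LQ
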