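import Pool.Agent.H69.LQ.Lib

/-!
# Board lqm_modules, row S1: the angular energy of polynomials of degree two
-/

set_option autoImplicit false

open MeasureTheory Metric Set
open scoped ENNReal
open Pool.Agent.H85.LK (E adm lam Ann)
open Pool.Agent.H69.LQ

namespace Pool.Agent.H86.LQ

section

variable {N : ℕ}

/-- the polynomial -/
def qd (m : ℝ) (c : Fin N → ℝ) (B : Fin N → Fin N → ℝ) (x : E N) : ℝ :=
  m + (∑ j, c j * x j) + ∑ j, ∑ k, B j k * (x j * x k)

theorem qd_fderiv (m : ℝ) (c : Fin N → ℝ) (B : Fin N → Fin N → ℝ) (hB : ∀ j k, B j k = B k j)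
    (x : E N) (i : Fin N) :
    fderiv ℝ (qd m c B) x (EuclideanSpace.single i 1) = c i + 2 * ∑ k, B i k * x k := by
  have hp : ∀ j : Fin N, HasFDerivAt (fun y : E N => y j) (EuclideanSpace.proj j : E N →L[ℝ] ℝ) x :=
    fun j => (EuclideanSpace.proj j : E N →L[ℝ] ℝ).hasFDerivAt
  have h1 : HasFDerivAt (fun y : E N => ∑ j, c j * y j)
      (∑ j, c j • (EuclideanSpace.proj j : E N →L[ℝ] ℝ)) x :=
    HasFDerivAt.fun_sum fun j _ => (hp j).const_mul (c j)
  have h2 : HasFDerivAt (fun y : E N => ∑ j, ∑ k, B j k * (y j * y k))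
      (∑ j, ∑ k, B j k • (x j • (EuclideanSpace.proj k : E N →L[ℝ] ℝ) +
        x k • (EuclideanSpace.proj j : E N →L[ℝ] ℝ))) x :=
    HasFDerivAt.fun_sum fun j _ => HasFDerivAt.fun_sum fun k _ =>
      ((hp j).mul (hp k)).const_mul (B j k)
  have h3 : HasFDerivAt (qd m c B) _ x := (h1.const_add m).add h2
  have hpj : ∀ j : Fin N, (EuclideanSpace.proj j : E N →L[ℝ] ℝ) (EuclideanSpace.single i 1) =
      if j = i then 1 else 0 := by
    intro j
    show (EuclideanSpace.single i (1 : ℝ) : E N) j = _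
    simp
  rw [h3.fderiv]
  simp only [add_apply, sum_apply, smul_apply, smul_eq_mul, hpj, mul_ite, mul_one, mul_zero,
    mul_add, Finset.sum_add_distrib, Finset.sum_ite_eq', Finset.mem_univ, if_true]
  have h4 : ∑ j, ∑ k, (if j = i then B j k * x k else 0) = ∑ k, B i k * x k := by
    rw [Finset.sum_comm]
    refine Finset.sum_congr rfl fun k _ => ?_
    rw [Finset.sum_ite_eq' Finset.univ i, if_pos (Finset.mem_univ i)]
  have h5 : ∑ j, B j i * x j = ∑ k, B i k * x k :=
    Finset.sum_congr rfl fun k _ => by rw [hB k i]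
  rw [h4, h5]
  ring

/-- Lagrange's identity -/
theorem lagr (x g : Fin N → ℝ) :
    1 / 2 * ∑ i, ∑ j, (x i * g j - x j * g i) ^ 2 =
      (∑ i, x i ^ 2) * (∑ j, g j ^ 2) - (∑ i, x i * g i) ^ 2 := by
  have h1 : ∀ i j, (x i * g j - x j * g i) ^ 2 =
      x i ^ 2 * g j ^ 2 + g i ^ 2 * x j ^ 2 - 2 * ((x i * g i) * (x j * g j)) := by
    intro i j
    ring
  simp only [h1, Finset.sum_sub_distrib, Finset.sum_add_distrib, ← Finset.mul_sum,
    ← Finset.sum_mul]
  ring

theorem av_lin (hMO : T_MO) (hN : 2 ≤ N) (a : Fin N → ℝ) :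
    av (fun θ : Sp N => ∑ k, a k * (θ : E N) k) = 0 := by
  obtain ⟨-, h1, -⟩ := hMO N hN
  rw [av_sum _ fun k _ => (BM_coord k).const_mul (a k)]
  refine Finset.sum_eq_zero fun k _ => ?_
  rw [av_const_mul, h1, mul_zero]

theorem av_quad (hMO : T_MO) (hN : 2 ≤ N) (a : Fin N → Fin N → ℝ) :
    av (fun θ : Sp N => ∑ j, ∑ k, a j k * ((θ : E N) j * (θ : E N) k)) = (∑ j, a j j) / N := by
  obtain ⟨-, -, h1, -⟩ := hMO N hN
  have hb : ∀ j k, BM fun θ : Sp N => a j k * ((θ : E N) j * (θ : E N) k) := fun j k =>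
    ((BM_coord j).mul (BM_coord k)).const_mul (a j k)
  rw [av_sum _ fun j _ => BM.sum _ fun k _ => hb j k, Finset.sum_div]
  refine Finset.sum_congr rfl fun j _ => ?_
  rw [av_sum _ fun k _ => hb j k, Finset.sum_eq_single j]
  · rw [av_const_mul, h1, if_pos rfl]
    ring
  · intro k _ hk
    rw [av_const_mul, h1, if_neg (Ne.symm hk), mul_zero]
  · intro h
    exact absurd (Finset.mem_univ j) h

theorem av_cub (hMO : T_MO) (hN : 2 ≤ N) (a : Fin N → Fin N → Fin N → ℝ) :
    av (fun θ : Sp N => ∑ i, ∑ j, ∑ k, a i j k * ((θ : E N) i * (θ : E N) j * (θ : E N) k)) =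
      0 := by
  obtain ⟨-, -, -, h1, -⟩ := hMO N hN
  have hb : ∀ i j k, BM fun θ : Sp N => a i j k * ((θ : E N) i * (θ : E N) j * (θ : E N) k) :=
    fun i j k => (((BM_coord i).mul (BM_coord j)).mul (BM_coord k)).const_mul (a i j k)
  rw [av_sum _ fun i _ => BM.sum _ fun j _ => BM.sum _ fun k _ => hb i j k]
  refine Finset.sum_eq_zero fun i _ => ?_
  rw [av_sum _ fun j _ => BM.sum _ fun k _ => hb i j k]
  refine Finset.sum_eq_zero fun j _ => ?_
  rw [av_sum _ fun k _ => hb i j k]
  refine Finset.sum_eq_zero fun k _ => ?_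
  rw [av_const_mul, h1, mul_zero]

theorem av_qrt (hMO : T_MO) (hN : 2 ≤ N) (B : Fin N → Fin N → ℝ) (hB : ∀ j k, B j k = B k j)
    (htr : ∑ j, B j j = 0) :
    av (fun θ : Sp N => ∑ i, ∑ j, ∑ k, ∑ l, B i j * B k l *
      ((θ : E N) i * (θ : E N) j * (θ : E N) k * (θ : E N) l)) =
      2 * (∑ i, ∑ j, B i j ^ 2) / ((N : ℝ) * (N + 2)) := by
  obtain ⟨-, -, -, -, h1⟩ := hMO N hN
  have hb : ∀ i j k l, BM fun θ : Sp N => B i j * B k l *
      ((θ : E N) i * (θ : E N) j * (θ : E N) k * (θ : E N) l) := fun i j k l =>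
    ((((BM_coord i).mul (BM_coord j)).mul (BM_coord k)).mul (BM_coord l)).const_mul (B i j * B k l)
  have h2 : av (fun θ : Sp N => ∑ i, ∑ j, ∑ k, ∑ l, B i j * B k l *
      ((θ : E N) i * (θ : E N) j * (θ : E N) k * (θ : E N) l)) =
      ∑ i, ∑ j, ∑ k, ∑ l, B i j * B k l * (((if i = j ∧ k = l then 1 else 0) +
        (if i = k ∧ j = l then 1 else 0) + (if i = l ∧ j = k then 1 else 0)) /
        ((N : ℝ) * (N + 2))) := by
    rw [av_sum _ fun i _ => BM.sum _ fun j _ => BM.sum _ fun k _ => BM.sum _ fun l _ => hb i j k l]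
    refine Finset.sum_congr rfl fun i _ => ?_
    rw [av_sum _ fun j _ => BM.sum _ fun k _ => BM.sum _ fun l _ => hb i j k l]
    refine Finset.sum_congr rfl fun j _ => ?_
    rw [av_sum _ fun k _ => BM.sum _ fun l _ => hb i j k l]
    refine Finset.sum_congr rfl fun k _ => ?_
    rw [av_sum _ fun l _ => hb i j k l]
    refine Finset.sum_congr rfl fun l _ => ?_
    rw [av_const_mul, h1]
  rw [h2]
  have h3 : ∀ i j, ∑ k, ∑ l, B i j * B k l * (((if i = j ∧ k = l then 1 else 0) +
        (if i = k ∧ j = l then 1 else 0) + (if i = l ∧ j = k then 1 else 0)) /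
        ((N : ℝ) * (N + 2))) =
      ((if i = j then B i j * ∑ k, B k k else 0) + B i j * B i j + B i j * B j i) /
        ((N : ℝ) * (N + 2)) := by
    intro i j
    have h4 : ∀ k l, B i j * B k l * (((if i = j ∧ k = l then 1 else 0) +
        (if i = k ∧ j = l then 1 else 0) + (if i = l ∧ j = k then 1 else 0)) /
        ((N : ℝ) * (N + 2))) =
        ((if k = l then (if i = j then B i j * B k l else 0) else 0) +
          (if j = l then (if i = k then B i j * B k l else 0) else 0) +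
          (if i = l then (if j = k then B i j * B k l else 0) else 0)) /
        ((N : ℝ) * (N + 2)) := by
      intro k l
      rw [mul_div_assoc']
      congr 1
      have hand : ∀ (P Q : Prop) [Decidable P] [Decidable Q] (c : ℝ),
          c * (if P ∧ Q then 1 else 0) = if Q then (if P then c else 0) else 0 := by
        intro P Q _ _ c
        by_cases hP : P <;> by_cases hQ : Q <;> simp [hP, hQ]
      have hand' : ∀ (P Q : Prop) [Decidable P] [Decidable Q] (c : ℝ),
          c * (if P ∧ Q then 1 else 0) = if P then (if Q then c else 0) else 0 := by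
        intro P Q _ _ c
        by_cases hP : P <;> by_cases hQ : Q <;> simp [hP, hQ]
      rw [mul_add, mul_add, hand, hand, hand']
    simp only [h4, ← Finset.sum_div, Finset.sum_add_distrib, Finset.sum_ite_eq,
      Finset.mem_univ, if_true]
    congr 2
    · congr 1
      by_cases a1 : i = j
      · simp only [a1, if_true]
        rw [Finset.mul_sum]
      · simp only [a1, if_false]
        exact Finset.sum_const_zero
  simp only [h3, htr, mul_zero, ite_self, zero_add]
  simp only [← Finset.sum_div]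
  congr 1
  rw [Finset.mul_sum]
  refine Finset.sum_congr rfl fun i _ => ?_
  rw [Finset.mul_sum]
  refine Finset.sum_congr rfl fun j _ => ?_
  rw [hB j i]
  ring

end

theorem pf_S1 (hMP : T_MP) (hMO : T_MO) : T_S1 := by
  intro N m c B hN hB htr
  have _ := hMP
  have hN0 : (0 : ℝ) < N := by
    have : (2 : ℝ) ≤ N := by exact_mod_cast hN
    linarith
  have hF : ∀ θ : Sp N, Gs (fun x : E N => m + (∑ j, c j * x j) +
      ∑ j, ∑ k, B j k * (x j * x k)) (θ : E N) =
      ((((∑ j, c j ^ 2) + 4 * ∑ k, (∑ j, c j * B j k) * (θ : E N) k) +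
        4 * ∑ k, ∑ l, (∑ j, B j k * B j l) * ((θ : E N) k * (θ : E N) l)) -
        (∑ j, ∑ k, (c j * c k) * ((θ : E N) j * (θ : E N) k))) -
        (4 * (∑ i, ∑ j, ∑ k, (c i * B j k) * ((θ : E N) i * (θ : E N) j * (θ : E N) k)) +
        4 * ∑ i, ∑ j, ∑ k, ∑ l, B i j * B k l *
          ((θ : E N) i * (θ : E N) j * (θ : E N) k * (θ : E N) l)) := by
    intro θ
    obtain ⟨x, hx⟩ : ∃ x : Fin N → ℝ, x = fun i => (θ : E N) i := ⟨_, rfl⟩
    have hxi : ∀ i, (θ : E N) i = x i := fun i => by rw [hx]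
    have h1 : ∀ i j, LL i j (fun x : E N => m + (∑ j, c j * x j) +
        ∑ j, ∑ k, B j k * (x j * x k)) (θ : E N) =
        x i * (c j + 2 * ∑ k, B j k * x k) - x j * (c i + 2 * ∑ k, B i k * x k) := by
      intro i j
      unfold LL
      have h2 := qd_fderiv m c B hB (θ : E N)
      unfold qd at h2
      rw [h2, h2]
      simp only [hxi]
    unfold Gs
    simp only [h1]
    rw [lagr x fun j => c j + 2 * ∑ k, B j k * x k]
    have h3 : ∑ i, x i ^ 2 = 1 := by
      have := sum_sq_sp θ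
      simp only [hxi] at this
      exact this
    rw [h3, one_mul]
    simp only [hxi]
    have t1 : ∑ k, (∑ j, c j * B j k) * x k = ∑ j, c j * ∑ k, B j k * x k := by
      simp only [Finset.sum_mul, Finset.mul_sum]
      rw [Finset.sum_comm]
      refine Finset.sum_congr rfl fun j _ => Finset.sum_congr rfl fun k _ => by ring
    have t2 : ∑ k, ∑ l, (∑ j, B j k * B j l) * (x k * x l) = ∑ j, (∑ k, B j k * x k) ^ 2 := by
      simp only [sq, Finset.sum_mul, Finset.mul_sum]
      have e1 : ∀ k, ∑ l, ∑ j, B j k * B j l * (x k * x l) =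
          ∑ j, ∑ l, B j k * B j l * (x k * x l) := fun k => Finset.sum_comm
      simp only [e1]
      rw [Finset.sum_comm]
      refine Finset.sum_congr rfl fun j _ => ?_
      rw [Finset.sum_comm]
      refine Finset.sum_congr rfl fun l _ => Finset.sum_congr rfl fun k _ => by ring
    have t3 : ∑ j, ∑ k, (c j * c k) * (x j * x k) = (∑ j, c j * x j) ^ 2 := by
      simp only [sq, Finset.sum_mul, Finset.mul_sum]
      rw [Finset.sum_comm]
      refine Finset.sum_congr rfl fun j _ => Finset.sum_congr rfl fun k _ => by ring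
    have t4 : ∑ i, ∑ j, ∑ k, (c i * B j k) * (x i * x j * x k) =
        (∑ i, c i * x i) * ∑ j, x j * ∑ k, B j k * x k := by
      rw [Finset.sum_mul]
      refine Finset.sum_congr rfl fun i _ => ?_
      rw [Finset.mul_sum]
      refine Finset.sum_congr rfl fun j _ => ?_
      rw [Finset.mul_sum, Finset.mul_sum]
      exact Finset.sum_congr rfl fun k _ => by ring
    have t5 : ∑ i, ∑ j, ∑ k, ∑ l, B i j * B k l * (x i * x j * x k * x l) =
        (∑ j, x j * ∑ k, B j k * x k) ^ 2 := by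
      have e1 : ∑ j, x j * ∑ k, B j k * x k = ∑ j, ∑ k, B j k * x j * x k := by
        simp only [Finset.mul_sum]
        exact Finset.sum_congr rfl fun j _ => Finset.sum_congr rfl fun k _ => by ring
      rw [e1, sq, Finset.sum_mul]
      refine Finset.sum_congr rfl fun i _ => ?_
      rw [Finset.sum_mul]
      refine Finset.sum_congr rfl fun j _ => ?_
      rw [Finset.mul_sum]
      refine Finset.sum_congr rfl fun k _ => ?_
      rw [Finset.mul_sum]
      exact Finset.sum_congr rfl fun l _ => by ring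
    rw [t1, t2, t3, t4, t5]
    have u1 : ∑ j, (c j + 2 * ∑ k, B j k * x k) ^ 2 = (∑ j, c j ^ 2) +
        4 * (∑ j, c j * ∑ k, B j k * x k) + 4 * ∑ j, (∑ k, B j k * x k) ^ 2 := by
      rw [Finset.mul_sum, Finset.mul_sum, ← Finset.sum_add_distrib, ← Finset.sum_add_distrib]
      exact Finset.sum_congr rfl fun j _ => by ring
    have u2 : ∑ j, x j * (c j + 2 * ∑ k, B j k * x k) = (∑ j, c j * x j) +
        2 * ∑ j, x j * ∑ k, B j k * x k := by
      rw [Finset.mul_sum, ← Finset.sum_add_distrib]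
      exact Finset.sum_congr rfl fun j _ => by ring
    rw [u1, u2]
    ring
  rw [show (fun θ : Sp N => Gs (fun x : E N => m + (∑ j, c j * x j) +
      ∑ j, ∑ k, B j k * (x j * x k)) (θ : E N)) = _ from funext hF]
  have b1 : BM fun θ : Sp N => ∑ k, (∑ j, c j * B j k) * (θ : E N) k :=
    BM.sum _ fun k _ => (BM_coord k).const_mul _
  have b2 : ∀ a : Fin N → Fin N → ℝ, BM fun θ : Sp N => ∑ j, ∑ k, a j k *
      ((θ : E N) j * (θ : E N) k) := fun a => BM.sum _ fun j _ => BM.sum _ fun k _ =>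
    ((BM_coord j).mul (BM_coord k)).const_mul _
  have b3 : BM fun θ : Sp N => ∑ i, ∑ j, ∑ k, (c i * B j k) *
      ((θ : E N) i * (θ : E N) j * (θ : E N) k) := BM.sum _ fun i _ => BM.sum _ fun j _ =>
    BM.sum _ fun k _ => (((BM_coord i).mul (BM_coord j)).mul (BM_coord k)).const_mul _
  have b4 : BM fun θ : Sp N => ∑ i, ∑ j, ∑ k, ∑ l, B i j * B k l *
      ((θ : E N) i * (θ : E N) j * (θ : E N) k * (θ : E N) l) := BM.sum _ fun i _ =>
    BM.sum _ fun j _ => BM.sum _ fun k _ => BM.sum _ fun l _ =>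
      ((((BM_coord i).mul (BM_coord j)).mul (BM_coord k)).mul (BM_coord l)).const_mul _
  have c1 := (BM_const (N := N) (∑ j, c j ^ 2)).add (b1.const_mul 4)
  have c2 := c1.add ((b2 fun k l => ∑ j, B j k * B j l).const_mul 4)
  have c3 := c2.sub (b2 fun j k => c j * c k)
  rw [av_sub c3 ((b3.const_mul 4).add (b4.const_mul 4)), av_sub c2 (b2 fun j k => c j * c k),
    av_add c1 ((b2 fun k l => ∑ j, B j k * B j l).const_mul 4),
    av_add (BM_const (∑ j, c j ^ 2)) (b1.const_mul 4), av_add (b3.const_mul 4) (b4.const_mul 4),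
    av_const_mul, av_const_mul, av_const_mul, av_const_mul, av_lin hMO hN, av_quad hMO hN,
    av_quad hMO hN, av_cub hMO hN, av_qrt hMO hN B hB htr]
  have d1 : av (fun _ : Sp N => ∑ j, c j ^ 2) = ∑ j, c j ^ 2 := by
    have h := av_const_mul (N := N) (∑ j, c j ^ 2) fun _ => 1
    rw [(hMO N hN).1, mul_one] at h
    exact h
  have d2 : ∑ j, ∑ j1, B j1 j * B j1 j = ∑ j, ∑ k, B j k ^ 2 := by
    rw [Finset.sum_comm]
    exact Finset.sum_congr rfl fun j _ => Finset.sum_congr rfl fun k _ => by ring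
  have d3 : ∑ j, c j * c j = ∑ j, c j ^ 2 := Finset.sum_congr rfl fun j _ => by ring
  rw [d1, d2, d3]
  field_simp
  ring

end Pool.Agent.H86.LQ
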